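import Mathlib

/-!
# A primarily Lindelof, monotonically Sokolov space that is not an `ℝ`-quotient image

The space is the countable subspace `{p} ∪ ℕ` of the Stone-Cech compactification of `ℕ`, where `p`
is a nonprincipal ultrafilter.
-/

set_option autoImplicit false

open Set Topology Filter

universe u v w

namespace Pool.Agent.Results.MP_e3da0c_gt.UltrafilterPoint

/-- The set `L_Γ = Γ ∪ {∞}`; the point `∞` is `none`. -/
def LSpace (Γ : Type u) : Type u := Option Γ

/-- The one-point Lindelofication of the discrete set `Γ`: the points of `Γ` are isolated and the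
neighbourhoods of `∞` are the sets containing `∞` whose complement is countable. -/
instance (Γ : Type u) : TopologicalSpace (LSpace Γ) where
  IsOpen U := (none : Option Γ) ∈ U → (Uᶜ : Set (Option Γ)).Countable
  isOpen_univ := by
    intro _
    have h : ((univ : Set (Option Γ))ᶜ : Set (Option Γ)) = ∅ := compl_univ
    exact h ▸ countable_empty
  isOpen_inter := by
    intro s t hs ht hst
    have h : ((s ∩ t)ᶜ : Set (Option Γ)) = sᶜ ∪ tᶜ := compl_inter s t
    exact h ▸ (hs hst.1).union (ht hst.2)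
  isOpen_sUnion := by
    rintro S hS ⟨s, hs, hmem⟩
    exact (hS s hs hmem).mono (compl_subset_compl.2 (subset_sUnion_of_mem hs))

/-- `T` is primarily Lindelof: a continuous image of a closed subset of `(L_Γ)^ℕ` for some `Γ`. -/
def PrimarilyLindelof (T : Type v) [TopologicalSpace T] : Prop :=
  ∃ (Γ : Type u) (F : Set (ℕ → LSpace Γ)) (f : F → T),
    IsClosed F ∧ Continuous f ∧ Function.Surjective f

/-- A map `φ` between the families of countable subsets of `M₁` and of `M₂` is `ω`-monotone. -/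
def OmegaMonotone {M₁ : Type u} {M₂ : Type v}
    (φ : {A : Set M₁ // A.Countable} → {B : Set M₂ // B.Countable}) : Prop :=
  (∀ A B : {A : Set M₁ // A.Countable}, A.1 ⊆ B.1 → (φ A).1 ⊆ (φ B).1) ∧
  ∀ A : ℕ → {A : Set M₁ // A.Countable}, (∀ n, (A n).1 ⊆ (A (n + 1)).1) →
    (φ ⟨⋃ n, (A n).1, countable_iUnion fun n => (A n).2⟩).1 = ⋃ n, (φ (A n)).1

/-- `T` is monotonically Sokolov: to every countable family `𝒜` of nonempty closed subsets of `T`
one can assign a continuous retraction `r 𝒜 : T → T` with `r 𝒜 (F) ⊆ F` for all `F ∈ 𝒜` and a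
countable outer network `N 𝒜` for `r 𝒜 (T)`, the assignment `𝒜 ↦ N 𝒜` being `ω`-monotone. -/
def MonotonicallySokolov (T : Type v) [TopologicalSpace T] : Prop :=
  ∃ (r : {𝒜 : Set {F : Set T // IsClosed F ∧ F.Nonempty} // 𝒜.Countable} → T → T)
    (N : {𝒜 : Set {F : Set T // IsClosed F ∧ F.Nonempty} // 𝒜.Countable} →
      {B : Set (Set T) // B.Countable}),
    (∀ 𝒜, Continuous (r 𝒜) ∧ (∀ x, r 𝒜 (r 𝒜 x) = r 𝒜 x) ∧ ∀ F ∈ 𝒜.1, r 𝒜 '' F.1 ⊆ F.1) ∧
    (∀ 𝒜, ∀ (U : Set T) (x : T), IsOpen U → x ∈ U → x ∈ range (r 𝒜) →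
      ∃ P ∈ (N 𝒜).1, x ∈ P ∧ P ⊆ U) ∧
    OmegaMonotone N

/-- `f : X → Y` is an `ℝ`-quotient map: a continuous surjection such that every `g : Y → ℝ` with
`g ∘ f` continuous is continuous. -/
def IsRQuotientMap {X : Type v} {Y : Type w} [TopologicalSpace X] [TopologicalSpace Y]
    (f : X → Y) : Prop :=
  Continuous f ∧ Function.Surjective f ∧ ∀ g : Y → ℝ, Continuous (g ∘ f) → Continuous g

/-- The subspace `{p} ∪ ℕ` of the Stone-Cech compactification `Ultrafilter ℕ` of `ℕ`, where `p` is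
the nonprincipal ultrafilter `hyperfilter ℕ`. -/
def T : Type := {x : Ultrafilter ℕ // x = hyperfilter ℕ ∨ ∃ n : ℕ, x = pure n}

instance : TopologicalSpace T := inferInstanceAs (TopologicalSpace {_x : Ultrafilter ℕ // _})

instance : T35Space T := inferInstanceAs (T35Space {_x : Ultrafilter ℕ // _})

/-- The point `p`. -/
noncomputable def pt : T := ⟨hyperfilter ℕ, Or.inl rfl⟩

/-- The isolated points. -/
def iso (n : ℕ) : T := ⟨pure n, Or.inr ⟨n, rfl⟩⟩

lemma eq_pt_or (x : T) : x = pt ∨ ∃ n, x = iso n := by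
  rcases x with ⟨x, rfl | ⟨n, rfl⟩⟩
  · exact Or.inl rfl
  · exact Or.inr ⟨n, rfl⟩

instance : Countable T := by
  refine Function.Surjective.countable (f := fun o : Option ℕ => o.elim pt iso) ?_
  intro x
  rcases eq_pt_or x with rfl | ⟨n, rfl⟩
  · exact ⟨none, rfl⟩
  · exact ⟨some n, rfl⟩

lemma isOpen_basic (A : Set ℕ) : IsOpen {x : T | A ∈ x.1} :=
  (ultrafilter_isOpen_basic A).preimage continuous_subtype_val

lemma mem_iso (A : Set ℕ) (n : ℕ) : A ∈ (iso n).1 ↔ n ∈ A := Ultrafilter.mem_pure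

lemma iso_ne_pt (n : ℕ) : iso n ≠ pt := by
  intro h
  have h1 : (pure n : Ultrafilter ℕ) = hyperfilter ℕ := congrArg Subtype.val h
  have h2 : ({n} : Set ℕ) ∈ hyperfilter ℕ := by
    rw [← h1]; exact mem_singleton n
  exact (notMem_hyperfilter_of_finite (finite_singleton n)) h2

/-- Neighbourhoods of `pt`. -/
lemma exists_of_nhds_pt (U : Set T) (hU : IsOpen U) (hp : pt ∈ U) :
    ∃ A ∈ hyperfilter ℕ, ∀ n ∈ A, iso n ∈ U := by
  obtain ⟨V, hV, rfl⟩ := isOpen_induced_iff.1 hU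
  obtain ⟨_, ⟨A, rfl⟩, hA, hAV⟩ := ultrafilterBasis_is_basis.exists_subset_of_mem_open
    (show hyperfilter ℕ ∈ V from hp) hV
  exact ⟨A, hA, fun n hn => hAV (show A ∈ (pure n : Ultrafilter ℕ) from hn)⟩

lemma discrete_of_countable (Γ : Type u) [Countable Γ] : DiscreteTopology (LSpace Γ) := by
  refine discreteTopology_iff_forall_isOpen.2 fun U _ => ?_
  have : Countable (Option Γ) := inferInstance
  exact Set.to_countable _

theorem primarilyLindelof : PrimarilyLindelof.{u} T := by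
  have hd := discrete_of_countable (ULift.{u} ℕ)
  let e : LSpace (ULift.{u} ℕ) → T := fun o => Option.elim o pt (fun n => iso n.down)
  refine ⟨ULift.{u} ℕ, univ, fun x => e (x.1 0), isClosed_univ, ?_, ?_⟩
  · have h1 : Continuous e := continuous_of_discreteTopology
    have h2 : Continuous (fun x : ℕ → LSpace (ULift.{u} ℕ) => x 0) := continuous_apply 0
    exact h1.comp (h2.comp continuous_subtype_val)
  · intro x
    rcases eq_pt_or x with rfl | ⟨n, rfl⟩
    · exact ⟨⟨fun _ => none, trivial⟩, rfl⟩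
    · exact ⟨⟨fun _ => some ⟨n⟩, trivial⟩, rfl⟩

theorem monotonicallySokolov : MonotonicallySokolov T := by
  refine ⟨fun _ => id, fun _ => ⟨range fun x : T => {x}, countable_range _⟩, ?_, ?_, ?_, ?_⟩
  · exact fun 𝒜 => ⟨continuous_id, fun x => rfl, fun F _ => by rw [image_id]⟩
  · exact fun 𝒜 U x _ hx _ => ⟨{x}, mem_range_self x, mem_singleton x, singleton_subset_iff.2 hx⟩
  · exact fun A B _ => Subset.rfl
  · exact fun A _ => (iUnion_const _).symm

/-- The basic neighbourhoods of a point `c` of `(L_Γ)^ℕ`. -/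
def V {Γ : Type u} (c : ℕ → LSpace Γ) (n : ℕ) (Δ : Set Γ) : Set (ℕ → LSpace Γ) :=
  {x | ∀ i < n, x i = c i ∨ (c i = (none : Option Γ) ∧ ∀ γ ∈ Δ, x i ≠ (some γ : Option Γ))}

lemma exists_V {Γ : Type u} (c : ℕ → LSpace Γ) (O : Set (ℕ → LSpace Γ)) (hO : IsOpen O)
    (hc : c ∈ O) : ∃ (n : ℕ) (Δ : Set Γ), Δ.Countable ∧ V c n Δ ⊆ O := by
  obtain ⟨I, t, ht, hI⟩ := isOpen_pi_iff.1 hO c hc
  -- the countable sets of exceptions
  let D : ℕ → Set Γ := fun i => {γ | i ∈ I ∧ c i = (none : Option Γ) ∧ (some γ : Option Γ) ∉ t i}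
  have hD : ∀ i, (D i).Countable := by
    intro i
    by_cases hi : i ∈ I ∧ c i = (none : Option Γ)
    · have h1 : ((t i)ᶜ : Set (Option Γ)).Countable := (ht i hi.1).1 (hi.2 ▸ (ht i hi.1).2)
      refine (h1.preimage_of_injOn (f := (some : Γ → Option Γ))
        (Option.some_injective Γ).injOn).mono ?_
      exact fun γ hγ => hγ.2.2
    · have h2 : D i = ∅ := by
        ext γ
        simp only [D, mem_ofPred_eq, mem_empty_iff_false, iff_false]
        exact fun h => hi ⟨h.1, h.2.1⟩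
      rw [h2]
      exact countable_empty
  refine ⟨I.sup id + 1, ⋃ i, D i, countable_iUnion hD, ?_⟩
  intro x hx
  apply hI
  intro i hi
  have hi' : i < I.sup id + 1 := Nat.lt_succ_of_le (Finset.le_sup (f := id) hi)
  rcases hx i hi' with h | ⟨h1, h2⟩
  · rw [h]; exact (ht i hi).2
  · by_contra hcon
    cases hxi : (x i : Option Γ) with
    | none =>
      apply hcon
      have : x i = c i := hxi.trans h1.symm
      rw [this]; exact (ht i hi).2
    | some γ =>
      refine h2 γ (mem_iUnion.2 ⟨i, hi, h1, ?_⟩) hxi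
      intro hmem
      apply hcon
      have : x i = (some γ : Option Γ) := hxi
      rw [this]; exact hmem

lemma V_mem_nhds {Γ : Type u} (c : ℕ → LSpace Γ) (n : ℕ) (Δ : Set Γ) (hΔ : Δ.Countable) :
    V c n Δ ∈ 𝓝 c := by
  have h1 : V c n Δ = ⋂ i ∈ Finset.range n,
      (fun x : ℕ → LSpace Γ => x i) ⁻¹'
        {y | y = c i ∨ (c i = (none : Option Γ) ∧ ∀ γ ∈ Δ, y ≠ (some γ : Option Γ))} := by
    ext x
    simp only [V, mem_ofPred_eq, mem_iInter, Finset.mem_range, mem_preimage]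
  rw [h1]
  refine (Filter.biInter_finset_mem _).2 fun i _ => ?_
  refine (continuous_apply i).continuousAt.preimage_mem_nhds ?_
  refine IsOpen.mem_nhds ?_ (Or.inl rfl)
  intro hnone
  rcases hnone with h | ⟨h, -⟩
  · refine (hΔ.image (some : Γ → Option Γ)).mono ?_
    intro y hy
    by_contra hcon
    apply hy
    refine Or.inr ⟨h.symm, fun γ hγ hyγ => hcon ⟨γ, hγ, hyγ.symm⟩⟩
  · refine (hΔ.image (some : Γ → Option Γ)).mono ?_
    intro y hy
    by_contra hcon
    apply hy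
    refine Or.inr ⟨h, fun γ hγ hyγ => hcon ⟨γ, hγ, hyγ.symm⟩⟩

lemma V_anti {Γ : Type u} (c : ℕ → LSpace Γ) {n m : ℕ} (hnm : n ≤ m) {Δ Δ' : Set Γ}
    (h : Δ ⊆ Δ') : V c m Δ' ⊆ V c n Δ := by
  intro x hx i hi
  rcases hx i (hi.trans_le hnm) with h1 | ⟨h1, h2⟩
  · exact Or.inl h1
  · exact Or.inr ⟨h1, fun γ hγ => h2 γ (h hγ)⟩

/-- No nonprincipal ultrafilter on `ℕ` has a countable decreasing base. -/
lemma no_countable_base (B : ℕ → Set ℕ) (hmono : ∀ n m, n ≤ m → B m ⊆ B n)
    (hne : ∀ n, (B n).Nonempty) (h : ∀ A ∈ hyperfilter ℕ, ∃ n, B n ⊆ A) : False := by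
  have hinf : ∀ n, (B n).Infinite := by
    intro n hfin
    obtain ⟨m, hm⟩ := h (B n)ᶜ (compl_mem_hyperfilter_of_finite hfin)
    obtain ⟨k, hk⟩ := hne (max n m)
    exact hm (hmono m _ (le_max_right n m) hk) (hmono n _ (le_max_left n m) hk)
  have hstep : ∀ (k a : ℕ), ∃ b ∈ B (k / 2), a < b := fun k a => (hinf (k / 2)).exists_gt a
  choose f hf1 hf2 using hstep
  let c : ℕ → ℕ := fun k => Nat.rec (f 0 0) (fun j a => f (j + 1) a) k
  have hc1 : ∀ k, c k ∈ B (k / 2) := by
    intro k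
    cases k with
    | zero => exact hf1 0 0
    | succ k => exact hf1 (k + 1) (c k)
  have hc2 : StrictMono c := strictMono_nat_of_lt_succ fun k => hf2 (k + 1) (c k)
  let A : Set ℕ := range fun n => c (2 * n)
  rcases (hyperfilter ℕ).mem_or_compl_mem A with hA | hA
  · obtain ⟨n, hn⟩ := h A hA
    have h1 : c (2 * n + 1) ∈ B n := by
      have := hc1 (2 * n + 1)
      rwa [show (2 * n + 1) / 2 = n by omega] at this
    obtain ⟨m, hm⟩ := hn h1
    have h2 : 2 * m = 2 * n + 1 := hc2.injective hm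
    omega
  · obtain ⟨n, hn⟩ := h Aᶜ hA
    have h1 : c (2 * n) ∈ B n := by
      have := hc1 (2 * n)
      rwa [show (2 * n) / 2 = n by omega] at this
    exact hn h1 ⟨n, rfl⟩

theorem not_rquotient (Γ : Type u) (F : Set (ℕ → LSpace Γ)) (f : F → T) :
    ¬ IsRQuotientMap f := by
  classical
  rintro ⟨hcont, -, hq⟩
  -- the set of points mapped to `ℕ`
  let O : Set F := {x | f x ≠ pt}
  have hOopen : IsOpen O := isOpen_compl_singleton.preimage hcont
  have hOclosed : ¬ IsClosed O := by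
    intro hcl
    let g : T → ℝ := fun x => if x = pt then 0 else 1
    have hg : Continuous (g ∘ f) := by
      have hclopen : IsClopen O := ⟨hcl, hOopen⟩
      have : g ∘ f = O.indicator (fun _ => (1 : ℝ)) := by
        ext x
        by_cases hx : f x = pt
        · rw [indicator_of_notMem (by simpa [O] using hx)]; simp [g, hx]
        · rw [indicator_of_mem (by simpa [O] using hx)]; simp [g, hx]
      rw [this]
      exact continuous_const.indicator (by simp [hclopen.frontier_eq])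
    have hg' := hq g hg
    have hU : IsOpen (g ⁻¹' Iio (1 / 2)) := isOpen_Iio.preimage hg'
    obtain ⟨A, hA, hAU⟩ := exists_of_nhds_pt _ hU (by simp [g])
    have hAne : A.Nonempty := (hyperfilter ℕ).nonempty_of_mem hA
    obtain ⟨n, hn⟩ := hAne
    have := hAU n hn
    simp only [mem_preimage, g, if_neg (iso_ne_pt n), mem_Iio] at this
    norm_num at this
  obtain ⟨c, hc1, hc2⟩ : ∃ c ∈ closure O, c ∉ O := by
    by_contra hcon
    push Not at hcon
    exact hOclosed (closure_subset_iff_isClosed.1 hcon)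
  have hfc : f c = pt := by simpa [O] using hc2
  -- traces of the basic neighbourhoods of `c`
  let B' : ℕ → Set Γ → Set ℕ := fun n Δ => {k | ∃ x : F, x.1 ∈ V c.1 n Δ ∧ f x = iso k}
  have hB'anti : ∀ n m Δ Δ', n ≤ m → Δ ⊆ Δ' → B' m Δ' ⊆ B' n Δ := by
    rintro n m Δ Δ' h1 h2 k ⟨x, hx, hk⟩
    exact ⟨x, V_anti c.1 h1 h2 hx, hk⟩
  have hex : ∀ n : ℕ, ∃ Δ : Set Γ, Δ.Countable ∧ ∀ Δ' : Set Γ, Δ'.Countable → B' n Δ ⊆ B' n Δ' := by
    intro n
    have : ∀ k : ℕ, ∃ Δ : Set Γ, Δ.Countable ∧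
        ((∃ Δ' : Set Γ, Δ'.Countable ∧ k ∉ B' n Δ') → k ∉ B' n Δ) := by
      intro k
      by_cases h : ∃ Δ' : Set Γ, Δ'.Countable ∧ k ∉ B' n Δ'
      · obtain ⟨Δ', h1, h2⟩ := h
        exact ⟨Δ', h1, fun _ => h2⟩
      · exact ⟨∅, countable_empty, fun h' => absurd h' h⟩
    choose Δ hΔ1 hΔ2 using this
    refine ⟨⋃ k, Δ k, countable_iUnion hΔ1, fun Δ' hΔ' k hk => ?_⟩
    by_contra hcon
    exact hΔ2 k ⟨Δ', hΔ', hcon⟩ (hB'anti n n _ _ le_rfl (subset_iUnion Δ k) hk)
  choose Δ hΔ1 hΔ2 using hex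
  refine no_countable_base (fun n => B' n (Δ n)) ?_ ?_ ?_
  · intro n m hnm
    exact (hΔ2 m (Δ m ∪ Δ n) ((hΔ1 m).union (hΔ1 n))).trans
      (hB'anti n m _ _ hnm subset_union_right)
  · intro n
    have h1 : (Subtype.val ⁻¹' V c.1 n (Δ n) : Set F) ∈ 𝓝 c :=
      continuous_subtype_val.continuousAt.preimage_mem_nhds (V_mem_nhds c.1 n (Δ n) (hΔ1 n))
    obtain ⟨x, hx1, hx2⟩ := mem_closure_iff_nhds.1 hc1 _ h1
    rcases eq_pt_or (f x) with h | ⟨k, hk⟩
    · exact absurd h hx2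
    · exact ⟨k, x, hx1, hk⟩
  · intro A hA
    have h1 : IsOpen (f ⁻¹' {x : T | A ∈ x.1}) := (isOpen_basic A).preimage hcont
    obtain ⟨W, hW, hWA⟩ := isOpen_induced_iff.1 h1
    have hcW : c.1 ∈ W := by
      have : c ∈ f ⁻¹' {x : T | A ∈ x.1} := by
        show A ∈ (f c).1
        rw [hfc]; exact hA
      rw [← hWA] at this
      exact this
    obtain ⟨n, Δ', hΔ', hV⟩ := exists_V c.1 W hW hcW
    refine ⟨n, (hΔ2 n Δ' hΔ').trans ?_⟩
    rintro k ⟨x, hx, hk⟩
    have h2 : x ∈ f ⁻¹' {x : T | A ∈ x.1} := by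
      rw [← hWA]; exact hV hx
    have h3 : A ∈ (f x).1 := h2
    rw [hk] at h3
    exact (mem_iso A k).1 h3

/-- There is a countable Tychonoff space that is primarily Lindelof and monotonically Sokolov, but
is not an `ℝ`-quotient image of any (closed) subset of any power `(L_Γ)^ℕ`. -/
theorem result :
    ∃ (S : Type) (_ : TopologicalSpace S), T35Space S ∧ Countable S ∧
      PrimarilyLindelof.{u} S ∧ MonotonicallySokolov S ∧
      ∀ (Γ : Type u) (F : Set (ℕ → LSpace Γ)) (f : F → S), ¬ IsRQuotientMap f :=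
  ⟨T, inferInstance, inferInstance, inferInstance, primarilyLindelof, monotonicallySokolov,
    not_rquotient⟩

end Pool.Agent.Results.MP_e3da0c_gt.UltrafilterPoint
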